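import Mathlib
import Pool.Agent.Helper415.WC6

/-!
Every uniformly bounded orthogonal basis normalized in `L_p(Ω)`, `2 ≤ p < ∞`, is almost greedy with
respect to the Weak Chebyshev Greedy Algorithm, for every weakness parameter `t ∈ (0, 1]`.

Idea of the proof. Let `f₀ = ∑_{j ∈ Λ} c_j ψ_j + g`, `|Λ| ≤ m`, `‖g‖_p = σ`, let `Γ_k` be the part of
`Λ` not yet picked after `k` steps and `u_k = ‖f_k‖_p`. As long as `u_k` is larger than a constant
times `σ`, one step gives `u_{k+1} ≤ u_k (1 - κ u_k² / (∑_{Γ_k} |c_j|)²)`, and orthogonality gives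
`∑_{Γ_k} c_j² ≤ C u_k²`. With the weights `w_k = κ / (∑_{Γ_k} |c_j|)²` these two facts give
`(w_0 + ... + w_k) ∑_{Γ_k} c_j² ≤ 3C/2`, and then a weighted Hardy inequality gives
`∑_k w_k (∑_{Γ_k} |c_j|)² ≤ 6 C m`. The left side is `κ` times the number of steps, so the number
of steps is at most a constant times `m`.
-/

set_option autoImplicit false

open MeasureTheory Filter Topology
open scoped ENNReal

namespace Pool.Agent.Results.MP_f28597_an.AlmostGreedyUBOB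

/-- A bounded domain: a nonempty bounded connected open subset of `ℝ^d`. -/
structure IsBoundedDomain {d : ℕ} (Ω : Set (EuclideanSpace ℝ (Fin d))) : Prop where
  isOpen : IsOpen Ω
  isConnected : IsConnected Ω
  isBounded : Bornology.IsBounded Ω

section General

variable {V : Type} [NormedAddCommGroup V] [NormedSpace ℝ V]

/-- A (Schauder) basis: every element has a unique expansion, convergent in norm. -/
def IsBasis (ψ : ℕ → V) : Prop :=
  ∀ f : V, ∃! c : ℕ → ℝ, Tendsto (fun n => ∑ j ∈ Finset.range n, c j • ψ j) atTop (𝓝 f)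

/-- Best `m`-term error of `f` with respect to `ψ`. -/
noncomputable def sigma (ψ : ℕ → V) (m : ℕ) (f : V) : ℝ :=
  sInf {e : ℝ | ∃ (Λ : Finset ℕ) (c : ℕ → ℝ), Λ.card ≤ m ∧ e = ‖f - ∑ j ∈ Λ, c j • ψ j‖}

/-- The span of the first `k` picked elements. -/
def picked (ψ : ℕ → V) (s : ℕ → ℕ) (k : ℕ) : Submodule ℝ V :=
  Submodule.span ℝ ((fun i => ψ (s i)) '' Set.Iio k)

/-- `G` is a best approximation of `f` from `W`. -/
def IsBestApprox (f G : V) (W : Submodule ℝ V) : Prop :=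
  G ∈ W ∧ ∀ h ∈ W, ‖f - G‖ ≤ ‖f - h‖

/-- The weak greedy condition for the choice of the index `i` at the residual `f`, when `F f` is the
norming functional of `f`. -/
def WeakGreedy (F : V → V → ℝ) (ψ : ℕ → V) (t : ℝ) (f : V) (i : ℕ) : Prop :=
  ∀ j, t * |F f (ψ j)| ≤ |F f (ψ i)|

/-- `r` is the sequence of residuals `f_0, f_1, ...` of a run of the Weak Chebyshev Greedy Algorithm
with weakness parameter `t` started at `f₀`, where `F f` is the norming functional of `f` and `s k`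
is the index of the element picked at step `k + 1`. If `f_k ≠ 0`, the element picked satisfies the
weak greedy condition and `f_{k+1} = f₀ - G` with `G` a best approximation of `f₀` from the span of
the elements picked so far; if `f_k = 0`, then `f_{k+1} = 0`. -/
def IsRun (F : V → V → ℝ) (ψ : ℕ → V) (t : ℝ) (f₀ : V) (s : ℕ → ℕ) (r : ℕ → V) : Prop :=
  r 0 = f₀ ∧
  ∀ k, (r k = 0 → r (k + 1) = 0) ∧
    (r k ≠ 0 → WeakGreedy F ψ t (r k) (s k) ∧
      ∃ G, IsBestApprox f₀ G (picked ψ s (k + 1)) ∧ r (k + 1) = f₀ - G)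

/-- `ψ` is almost greedy with respect to the WCGA with weakness parameter `t`. -/
def AlmostGreedy (F : V → V → ℝ) (ψ : ℕ → V) (t : ℝ) : Prop :=
  ∃ (C' : ℕ) (C : ℝ), ∀ (f₀ : V) (s : ℕ → ℕ) (r : ℕ → V), IsRun F ψ t f₀ s r →
    ∀ m : ℕ, 1 ≤ m → ‖r (C' * m)‖ ≤ C * sigma ψ m f₀

end General

section Lp

variable {X : Type} [MeasurableSpace X] {μ : Measure X} {p : ℝ≥0∞}

/-- Orthogonality in `L_2(μ)`. -/
def Orth (μ : Measure X) (f g : X → ℝ) : Prop := ∫ x, f x * g x ∂μ = 0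

/-- `|f| ≤ M` almost everywhere. -/
def BddBy (μ : Measure X) (M : ℝ) (f : X → ℝ) : Prop := ∀ᵐ x ∂μ, |f x| ≤ M

/-- The integral `∫ |f|^(q-2) f g`. -/
noncomputable def pairing (μ : Measure X) (q : ℝ) (f g : X → ℝ) : ℝ :=
  ∫ x, |f x| ^ (q - 2) * f x * g x ∂μ

/-- Uniformly bounded orthogonal basis normalized in the real space `L_p(μ)`. -/
structure IsUBOB [Fact (1 ≤ p)] (ψ : ℕ → Lp ℝ p μ) : Prop where
  basis : IsBasis ψ
  orthogonal : ∀ i j, i ≠ j → Orth μ (ψ i) (ψ j)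
  normalized : ∀ j, ‖ψ j‖ = 1
  bounded : ∃ M : ℝ, ∀ j, BddBy μ M (ψ j)

/-- The norming functional `F_f(g) = ‖f‖^(1-p) ∫ |f|^(p-2) f g`. -/
noncomputable def normingF [Fact (1 ≤ p)] (f g : Lp ℝ p μ) : ℝ :=
  ‖f‖ ^ (1 - p.toReal) * pairing μ p.toReal f g

end Lp

variable {d : ℕ} {Ω : Set (EuclideanSpace ℝ (Fin d))} {p : ℝ≥0∞}

/-- Lebesgue measure on `Ω`. -/
noncomputable def leb (Ω : Set (EuclideanSpace ℝ (Fin d))) : Measure (EuclideanSpace ℝ (Fin d)) :=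
  volume.restrict Ω

/-- The real Banach space `L_p(Ω)`, Lebesgue measure on `Ω`. -/
abbrev LpΩ (Ω : Set (EuclideanSpace ℝ (Fin d))) (p : ℝ≥0∞) : Type := Lp ℝ p (leb Ω)

/-! ### Proof -/

open Pool.Agent.Helper415

lemma lift_span [Fact (1 ≤ p)] (S : Set (LpΩ Ω p)) (v : LpΩ Ω p) (hv : v ∈ Submodule.span ℝ S) :
    ∃ w ∈ Submodule.span ℝ ((fun g : LpΩ Ω p => (g : EuclideanSpace ℝ (Fin d) → ℝ)) '' S),
      w =ᵐ[leb Ω] v := by
  induction hv using Submodule.span_induction with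
  | mem x hx => exact ⟨x, Submodule.subset_span ⟨x, hx, rfl⟩, EventuallyEq.rfl⟩
  | zero => exact ⟨0, Submodule.zero_mem _, (Lp.coeFn_zero ℝ p _).symm⟩
  | add x y _ _ hx hy =>
    obtain ⟨w, hw, hw'⟩ := hx
    obtain ⟨z, hz, hz'⟩ := hy
    exact ⟨w + z, Submodule.add_mem _ hw hz, (hw'.add hz').trans (Lp.coeFn_add x y).symm⟩
  | smul a x _ hx =>
    obtain ⟨w, hw, hw'⟩ := hx
    exact ⟨a • w, Submodule.smul_mem _ a hw, (hw'.const_smul a).trans (Lp.coeFn_smul a x).symm⟩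

lemma lower_span [Fact (1 ≤ p)] (S : Set (LpΩ Ω p)) (w : EuclideanSpace ℝ (Fin d) → ℝ)
    (hw : w ∈ Submodule.span ℝ ((fun g : LpΩ Ω p => (g : EuclideanSpace ℝ (Fin d) → ℝ)) '' S)) :
    ∃ v ∈ Submodule.span ℝ S, w =ᵐ[leb Ω] (v : LpΩ Ω p) := by
  induction hw using Submodule.span_induction with
  | mem x hx =>
    obtain ⟨g, hg, rfl⟩ := hx
    exact ⟨g, Submodule.subset_span hg, EventuallyEq.rfl⟩
  | zero => exact ⟨0, Submodule.zero_mem _, (Lp.coeFn_zero ℝ p _).symm⟩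
  | add x y _ _ hx hy =>
    obtain ⟨w, hw, hw'⟩ := hx
    obtain ⟨z, hz, hz'⟩ := hy
    exact ⟨w + z, Submodule.add_mem _ hw hz, (hw'.add hz').trans (Lp.coeFn_add w z).symm⟩
  | smul a x _ hx =>
    obtain ⟨w, hw, hw'⟩ := hx
    exact ⟨a • w, Submodule.smul_mem _ a hw, (hw'.const_smul a).trans (Lp.coeFn_smul a w).symm⟩

lemma norm_eq [Fact (1 ≤ p)] (hp0 : p ≠ 0) (hp : p ≠ ⊤) (f : LpΩ Ω p)
    (w : EuclideanSpace ℝ (Fin d) → ℝ) (hw : w =ᵐ[leb Ω] f) :
    ‖f‖ = (∫ x, |w x| ^ p.toReal ∂(leb Ω)) ^ (1 / p.toReal) := by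
  rw [Lp.norm_def, MemLp.eLpNorm_eq_integral_rpow_norm hp0 hp (Lp.memLp f)]
  rw [ENNReal.toReal_ofReal (by positivity), one_div]
  congr 1
  apply integral_congr_ae
  filter_upwards [hw] with x hx
  rw [hx, Real.norm_eq_abs]

lemma coeFn_sum [Fact (1 ≤ p)] (ψ : ℕ → LpΩ Ω p) (Λ : Finset ℕ) (c : ℕ → ℝ) :
    ((∑ j ∈ Λ, c j • ψ j : LpΩ Ω p) : EuclideanSpace ℝ (Fin d) → ℝ) =ᵐ[leb Ω]
      fun x => ∑ j ∈ Λ, c j * ψ j x := by
  classical
  induction Λ using Finset.induction_on with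
  | empty =>
    simp only [Finset.sum_empty]
    exact Lp.coeFn_zero ℝ p _
  | insert a Λ' ha ih =>
    simp only [Finset.sum_insert ha]
    filter_upwards [ih, Lp.coeFn_add (c a • ψ a) (∑ j ∈ Λ', c j • ψ j), Lp.coeFn_smul (c a) (ψ a)]
      with x h1 h2 h3
    rw [h2, Pi.add_apply, h1, h3, Pi.smul_apply, smul_eq_mul]

/-- **Main result.** Every uniformly bounded orthogonal basis normalized in `L_p(Ω)`, `Ω` a bounded
domain and `2 ≤ p < ∞`, is almost greedy with respect to the WCGA, for every `t ∈ (0, 1]`. -/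
theorem result (d : ℕ) (Ω : Set (EuclideanSpace ℝ (Fin d))) (hΩ : IsBoundedDomain Ω)
    (p : ℝ≥0∞) [Fact (1 ≤ p)] (hp2 : 2 ≤ p) (hptop : p ≠ ⊤) (ψ : ℕ → LpΩ Ω p) (hψ : IsUBOB ψ)
    (t : ℝ) (ht : 0 < t) (_ht1 : t ≤ 1) : AlmostGreedy normingF ψ t := by
  classical
  set μ : Measure (EuclideanSpace ℝ (Fin d)) := leb Ω with hμ
  have hfin : IsFiniteMeasure μ := ⟨by
    rw [hμ, leb, Measure.restrict_apply_univ]
    exact hΩ.isBounded.measure_lt_top⟩
  set q : ℝ := p.toReal with hq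
  have hpq : ENNReal.ofReal q = p := ENNReal.ofReal_toReal hptop
  have hp0 : p ≠ 0 := by
    intro h; rw [h] at hp2; exact absurd hp2 (by norm_num)
  have hq2 : 2 ≤ q := by
    have := ENNReal.toReal_mono hptop hp2
    simpa using this
  have hq0 : 0 < q := by linarith
  obtain ⟨M, hM⟩ := hψ.bounded
  set M' : ℝ := max M 1 with hM'
  have hM'1 : 1 ≤ M' := le_max_right _ _
  have hM'p : 0 < M' := by linarith
  set b : ℝ := (M' ^ (q - 2))⁻¹ with hb
  have hbpos : 0 < b := by positivity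
  set D : Set (EuclideanSpace ℝ (Fin d) → ℝ) := Set.range (fun j => (ψ j : EuclideanSpace ℝ (Fin d) → ℝ)) with hD
  have hmem : ∀ f : LpΩ Ω p, MemLp f (ENNReal.ofReal q) μ := fun f => by
    rw [hpq]; exact Lp.memLp f
  have hDmem : ∀ g ∈ D, MemLp g (ENNReal.ofReal q) μ := by
    rintro g ⟨j, rfl⟩; exact hmem (ψ j)
  have hint : ∀ f : LpΩ Ω p, ∫ x, |f x| ^ q ∂μ = ‖f‖ ^ q := by
    intro f
    rw [norm_eq hp0 hptop f f EventuallyEq.rfl, ← Real.rpow_mul (integral_nonneg (fun x => by positivity)),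
      one_div, ← hq, inv_mul_cancel₀ hq0.ne', Real.rpow_one]
  have hD1 : ∀ g ∈ D, ∫ x, |g x| ^ q ∂μ ≤ 1 := by
    rintro g ⟨j, rfl⟩
    show ∫ x, |ψ j x| ^ q ∂μ ≤ 1
    rw [hint, hψ.normalized, Real.one_rpow]
  have hDb : ∀ g ∈ D, b ≤ ∫ x, g x ^ 2 ∂μ := by
    rintro g ⟨j, rfl⟩
    show b ≤ ∫ x, ψ j x ^ 2 ∂μ
    have h1 : ∫ x, |ψ j x| ^ q ∂μ ≤ ∫ x, M' ^ (q - 2) * ψ j x ^ 2 ∂μ := by
      apply integral_mono_ae (WC.int_rpow hq2 (hmem (ψ j)))
        ((WC.memLp_two hq2 (hmem (ψ j))).integrable_sq.const_mul _)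
      filter_upwards [hM j] with x hx
      rcases (abs_nonneg (ψ j x)).eq_or_lt with h0 | h0
      · rw [← h0, Real.zero_rpow hq0.ne']; positivity
      · rw [WC.rpow_split hq2 h0, sq_abs]
        apply mul_le_mul_of_nonneg_right _ (sq_nonneg _)
        exact Real.rpow_le_rpow h0.le (hx.trans (le_max_left _ _)) (by linarith)
    rw [hint, hψ.normalized, Real.one_rpow, integral_const_mul] at h1
    rw [hb, inv_le_iff_one_le_mul₀ (by positivity), mul_comm]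
    exact h1
  have hDo : ∀ g ∈ D, ∀ h ∈ D, g ≠ h → ∫ x, g x * h x ∂μ = 0 := by
    rintro g ⟨i, rfl⟩ h ⟨j, rfl⟩ hne
    apply hψ.orthogonal
    intro hij; subst hij; exact hne rfl
  refine ⟨WC.C1 q t b (μ.real Set.univ), WC.C2 q, ?_⟩
  intro f₀ s r hrun m hm
  obtain ⟨hr0, hstep⟩ := hrun
  -- all residuals are best residuals
  have hall : ∀ k, (f₀ - r k) ∈ Submodule.span ℝ ((fun i => ψ (s i)) '' Set.Iio k) ∧
      ∀ h ∈ Submodule.span ℝ ((fun i => ψ (s i)) '' Set.Iio k), ‖r k‖ ≤ ‖f₀ - h‖ := by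
    intro k
    induction k with
    | zero =>
      rw [hr0]
      refine ⟨by simp, ?_⟩
      intro h hh
      simp at hh
      rw [hh, sub_zero]
    | succ k ih =>
      by_cases hk : r k = 0
      · have hk1 := (hstep k).1 hk
        rw [hk1]
        refine ⟨?_, fun h _ => by rw [norm_zero]; exact norm_nonneg _⟩
        have h1 := ih.1
        rw [hk] at h1
        exact Submodule.span_mono (Set.image_mono (Set.Iio_subset_Iio (Nat.le_succ k))) h1
      · obtain ⟨_, G, ⟨hG, hGmin⟩, hrG⟩ := (hstep k).2 hk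
        rw [hrG]
        refine ⟨by simpa [picked] using hG, hGmin⟩
  have himg : ∀ k, (fun g : LpΩ Ω p => (g : EuclideanSpace ℝ (Fin d) → ℝ)) ''
      ((fun i => ψ (s i)) '' Set.Iio k) =
      (fun i => (ψ (s i) : EuclideanSpace ℝ (Fin d) → ℝ)) '' Set.Iio k := by
    intro k; rw [Set.image_image]
  have hlift : ∀ k, ∃ w ∈ Submodule.span ℝ
      ((fun i => (ψ (s i) : EuclideanSpace ℝ (Fin d) → ℝ)) '' Set.Iio k),
      w =ᵐ[μ] (f₀ - r k : LpΩ Ω p) := by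
    intro k
    rw [← himg]
    exact lift_span _ _ (hall k).1
  choose G hGs hGe using hlift
  set φ : ℕ → EuclideanSpace ℝ (Fin d) → ℝ := fun i => ψ (s i) with hφ
  have hres : ∀ k, (fun x => (f₀ : EuclideanSpace ℝ (Fin d) → ℝ) x - G k x) =ᵐ[μ] r k := by
    intro k
    filter_upwards [hGe k, Lp.coeFn_sub f₀ (r k)] with x h1 h2
    rw [h1, h2]; simp
  have hGm : ∀ n, ∀ h ∈ Submodule.span ℝ (φ '' Set.Iio n),
      ∫ x, |(f₀ : EuclideanSpace ℝ (Fin d) → ℝ) x - G n x| ^ q ∂μ ≤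
        ∫ x, |(f₀ : EuclideanSpace ℝ (Fin d) → ℝ) x - h x| ^ q ∂μ := by
    intro n h hh
    rw [hφ, ← himg] at hh
    obtain ⟨v, hv, hve⟩ := lower_span _ _ hh
    have h1 := (hall n).2 v hv
    have h2 : (fun x => (f₀ : EuclideanSpace ℝ (Fin d) → ℝ) x - h x) =ᵐ[μ] (f₀ - v : LpΩ Ω p) := by
      filter_upwards [hve, Lp.coeFn_sub f₀ v] with x h1 h2
      rw [h2, Pi.sub_apply, h1]
    rw [norm_eq hp0 hptop (r n) _ (hres n), norm_eq hp0 hptop (f₀ - v) _ h2] at h1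
    exact (Real.rpow_le_rpow_iff (integral_nonneg (fun x => by positivity))
      (integral_nonneg (fun x => by positivity)) (by positivity)).mp h1
  have hsel : ∀ n, ∀ g ∈ D, t * |∫ x, |(f₀ : EuclideanSpace ℝ (Fin d) → ℝ) x - G n x| ^ (q - 2) *
        (f₀ x - G n x) * g x ∂μ| ≤
      |∫ x, |(f₀ : EuclideanSpace ℝ (Fin d) → ℝ) x - G n x| ^ (q - 2) *
        (f₀ x - G n x) * φ n x ∂μ| := by
    rintro n g ⟨j, rfl⟩
    have hrep : ∀ j, ∫ x, |(f₀ : EuclideanSpace ℝ (Fin d) → ℝ) x - G n x| ^ (q - 2) *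
        (f₀ x - G n x) * ψ j x ∂μ = ∫ x, |r n x| ^ (q - 2) * r n x * ψ j x ∂μ := by
      intro j
      apply integral_congr_ae
      filter_upwards [hres n] with x hx
      rw [hx]
    show t * |∫ x, |(f₀ : EuclideanSpace ℝ (Fin d) → ℝ) x - G n x| ^ (q - 2) *
        (f₀ x - G n x) * ψ j x ∂μ| ≤ |∫ x, |(f₀ : EuclideanSpace ℝ (Fin d) → ℝ) x - G n x| ^ (q - 2) *
        (f₀ x - G n x) * ψ (s n) x ∂μ|
    rw [hrep, hrep]
    by_cases hn : r n = 0
    · have hz : ∀ j, ∫ x, |r n x| ^ (q - 2) * r n x * ψ j x ∂μ = 0 := by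
        intro j
        rw [← integral_zero (α := EuclideanSpace ℝ (Fin d)) (G := ℝ) (μ := μ)]
        apply integral_congr_ae
        have h0 : (r n : EuclideanSpace ℝ (Fin d) → ℝ) =ᵐ[μ] 0 := by
          rw [hn]; exact Lp.coeFn_zero ℝ p _
        filter_upwards [h0] with x hx
        rw [hx]; simp
      rw [hz, hz]; simp
    · have h1 := ((hstep n).2 hn).1 j
      have hnorm : 0 < ‖r n‖ := norm_pos_iff.mpr hn
      have hc : 0 < ‖r n‖ ^ (1 - p.toReal) := by positivity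
      simp only [normingF, pairing, abs_mul, abs_of_pos hc] at h1
      have h2 : ‖r n‖ ^ (1 - p.toReal) * (t * |∫ x, |r n x| ^ (p.toReal - 2) * r n x * ψ j x ∂μ|) ≤
          ‖r n‖ ^ (1 - p.toReal) * |∫ x, |r n x| ^ (p.toReal - 2) * r n x * ψ (s n) x ∂μ| := by
        linarith
      exact le_of_mul_le_mul_left h2 hc
  -- conclusion
  have hC2 : 0 < WC.C2 q := by unfold WC.C2; positivity
  have hbound : ∀ (Λ : Finset ℕ) (c : ℕ → ℝ), Λ.card ≤ m →
      ‖r (WC.C1 q t b (μ.real Set.univ) * m)‖ ≤ WC.C2 q * ‖f₀ - ∑ j ∈ Λ, c j • ψ j‖ := by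
    intro Λ c hcard
    have hinj : ∃ e : Fin m → ℕ, ∃ c' : Fin m → ℝ, ∀ x, ∑ i, c' i * ψ (e i) x = ∑ j ∈ Λ, c j * ψ j x := by
      refine ⟨fun i => if h : (i : ℕ) < Λ.card then (Λ.equivFin.symm ⟨i, h⟩ : ℕ) else 0,
        fun i => if h : (i : ℕ) < Λ.card then c (Λ.equivFin.symm ⟨i, h⟩ : ℕ) else 0, ?_⟩
      intro x
      have h1 : ∀ i : Fin m, (if h : (i : ℕ) < Λ.card then c (Λ.equivFin.symm ⟨i, h⟩ : ℕ) else 0) *
          ψ (if h : (i : ℕ) < Λ.card then (Λ.equivFin.symm ⟨i, h⟩ : ℕ) else 0) x =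
          (fun k : ℕ => if h : k < Λ.card then c (Λ.equivFin.symm ⟨k, h⟩ : ℕ) *
            ψ (Λ.equivFin.symm ⟨k, h⟩ : ℕ) x else 0) i := by
        intro i
        by_cases h : (i : ℕ) < Λ.card
        · simp [h]
        · simp [h]
      rw [Finset.sum_congr rfl (fun i _ => h1 i), Fin.sum_univ_eq_sum_range
        (fun k : ℕ => if h : k < Λ.card then c (Λ.equivFin.symm ⟨k, h⟩ : ℕ) *
            ψ (Λ.equivFin.symm ⟨k, h⟩ : ℕ) x else 0) m]
      have h2 : ∑ k ∈ Finset.range m, (if h : k < Λ.card then c (Λ.equivFin.symm ⟨k, h⟩ : ℕ) *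
            ψ (Λ.equivFin.symm ⟨k, h⟩ : ℕ) x else 0) =
          ∑ k ∈ Finset.range Λ.card, (if h : k < Λ.card then c (Λ.equivFin.symm ⟨k, h⟩ : ℕ) *
            ψ (Λ.equivFin.symm ⟨k, h⟩ : ℕ) x else 0) := by
        symm
        apply Finset.sum_subset (Finset.range_subset_range.mpr hcard)
        intro k _ hk
        rw [dif_neg (by simpa using hk)]
      rw [h2, ← Fin.sum_univ_eq_sum_range]
      have h3 : ∀ i : Fin Λ.card, (if h : (i : ℕ) < Λ.card then c (Λ.equivFin.symm ⟨i, h⟩ : ℕ) *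
            ψ (Λ.equivFin.symm ⟨i, h⟩ : ℕ) x else 0) = c (Λ.equivFin.symm i : ℕ) *
            ψ (Λ.equivFin.symm i : ℕ) x := by
        intro i; rw [dif_pos i.2]
      rw [Finset.sum_congr rfl (fun i _ => h3 i)]
      rw [Equiv.sum_comp Λ.equivFin.symm (fun j : Λ => c (j : ℕ) * ψ (j : ℕ) x)]
      exact Finset.sum_coe_sort Λ (fun j => c j * ψ j x)
    obtain ⟨e, c', hec⟩ := hinj
    have hmain := WC.almost_greedy (μ := μ) hq2 ht hbpos D hDmem hD1 hDb hDo f₀ (hmem f₀) φ G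
      (fun n => ⟨s n, rfl⟩) hGs hGm hsel m (fun i => ψ (e i)) (fun i => ⟨e i, rfl⟩) c'
    have h2 : (fun x => (f₀ : EuclideanSpace ℝ (Fin d) → ℝ) x - ∑ i, c' i * ψ (e i) x) =ᵐ[μ]
        (f₀ - ∑ j ∈ Λ, c j • ψ j : LpΩ Ω p) := by
      have h3 := coeFn_sum ψ Λ c
      filter_upwards [h3, Lp.coeFn_sub f₀ (∑ j ∈ Λ, c j • ψ j)] with x h4 h5
      rw [h5, Pi.sub_apply, h4, hec]
    rw [norm_eq hp0 hptop (r _) _ (hres _), norm_eq hp0 hptop _ _ h2]
    exact hmain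
  unfold sigma
  rw [← div_le_iff₀' hC2]
  apply le_csInf
  · exact ⟨_, ∅, 0, by simp, rfl⟩
  · rintro e ⟨Λ, c, hcard, rfl⟩
    rw [div_le_iff₀' hC2]
    exact hbound Λ c hcard

end Pool.Agent.Results.MP_f28597_an.AlmostGreedyUBOB
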